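import Pool.Agent.Helper58.R3.Stmts

set_option autoImplicit false
open Classical

namespace Pool.Agent.Helper58.R3

theorem st_CA (hLYF : ST_LYF) (hR1 : ST_R1) (hR2 : ST_R2) : ST_CA := by
  intro m H v0 Z ψ k hS hd
  obtain ⟨d, hdD, hdP⟩ := hd
  by_contra hno
  push Not at hno
  obtain ⟨hcov, huniq, hnper, hsh, hper, hv, hcyc, hinj, hadj, hEL, hEP⟩ := hLYF m H v0 Z ψ k hS
  obtain ⟨hR1a, hR1b⟩ := hR1 m H v0 Z ψ k hS
  have hR2' := hR2 m H v0 Z ψ k hS
  have hD : ∀ q ∈ nb H Z, ∀ t, Lay Z ψ t q → t % (k + 1) = 0 := by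
    intro q hq t ht
    by_contra hne
    have h := (hR2' q hq t ht hne).2.1
    exact hno (k - t % (k + 1)) (Nat.sub_le _ _) h
  have hit : ∀ a : ℕ, ∀ y, Per Z ψ y → ψ^[a * (k + 1)] y ∈ nb H Z → y ∈ nb H Z := by
    intro a
    induction a with
    | zero =>
      intro y _ h
      simpa using h
    | succ a ih =>
      intro y hy h
      apply ih y hy
      apply hR1b _ (hper y _ hy)
      rw [← Function.iterate_add_apply]
      have : k + 1 + a * (k + 1) = (a + 1) * (k + 1) := by ring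
      rw [this]
      exact h
  obtain ⟨F, hFdef⟩ : ∃ F : Finset (Fin m),
      F = Finset.univ.filter (fun x => ∃ i, Lay Z ψ i x ∧ i % (k + 1) = 0) := ⟨_, rfl⟩
  have hFmem : ∀ x, x ∈ F ↔ ∃ i, Lay Z ψ i x ∧ i % (k + 1) = 0 := by
    intro x
    rw [hFdef, Finset.mem_filter]
    exact ⟨fun h => h.2, fun h => ⟨Finset.mem_univ _, h⟩⟩
  have hFne : F.Nonempty :=
    ⟨ψ^[k] v0, (hFmem _).2 ⟨0, ⟨hS.kl.1, fun j hj => absurd hj (Nat.not_lt_zero j)⟩, by simp⟩⟩
  have hnb : ∀ y ∈ nb H F, y ∈ nb H Z ∧ Per Z ψ y := by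
    intro y hy
    unfold nb at hy
    obtain ⟨hyF, x, hxF, hxy⟩ := (Finset.mem_filter.1 hy).2
    obtain ⟨i, hi, him⟩ := (hFmem x).1 hxF
    rcases hcov y with ⟨j, hj⟩ | hyP
    · exfalso
      apply hyF
      rw [hFmem]
      refine ⟨j, hj, ?_⟩
      rcases lt_trichotomy i j with h | h | h
      · obtain ⟨h1, h2⟩ := hEL x y i j hi hj h hxy
        have h3 := hD _ h1 _ h2
        have h4 : j = i + (j - i) := by omega
        rw [h4, Nat.add_mod, him, h3]
        simp
      · rw [← h]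
        exact him
      · obtain ⟨h1, h2⟩ := hEL y x j i hj hi h hxy.symm
        have h3 := hD _ h1 _ h2
        have h4 : (k + 1) ∣ i := Nat.dvd_of_mod_eq_zero him
        have h5 : (k + 1) ∣ i - j := Nat.dvd_of_mod_eq_zero h3
        have h6 : (k + 1) ∣ j := by
          have h7 := Nat.dvd_sub h4 h5
          rwa [Nat.sub_sub_self h.le] at h7
        exact Nat.mod_eq_zero_of_dvd h6
    · refine ⟨?_, hyP⟩
      have h1 := (hEP x y i hi hyP hxy).1
      obtain ⟨a, ha⟩ := Nat.dvd_of_mod_eq_zero him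
      rw [ha, mul_comm] at h1
      exact hit a y hyP h1
  have hcard : (nb H F).card ≤ 2 := by
    have hsub : nb H F ⊆ (nb H Z).erase d := by
      intro y hy
      obtain ⟨h1, h2⟩ := hnb y hy
      rw [Finset.mem_erase]
      exact ⟨fun h => hdP (h ▸ h2), h1⟩
    have h1 := Finset.card_le_card hsub
    rw [Finset.card_erase_of_mem hdD, hS.D3] at h1
    omega
  rcases hS.k3 F hFne hcard v0 with h | h
  · obtain ⟨i, hi, him⟩ := (hFmem v0).1 h
    have h1 := huniq v0 i k hi hS.kl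
    have h2 := hS.k1
    rw [h1, Nat.mod_eq_of_lt (Nat.lt_succ_self _)] at him
    omega
  · exact hnper v0 k hS.kl (hnb v0 h).2

end Pool.Agent.Helper58.R3
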